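import Pool.Agent.Helper52.NX3.BadRealOf
import Pool.Agent.Helper51.NX3.Incr

/-!
# Project NX2, C7: bad sets at the real positions
-/

set_option autoImplicit false

open Finset
open scoped BigOperators

namespace Pool.Agent.Helper57.NX3

noncomputable section

theorem bad_real (M : ℕ) (hM : 1 ≤ M) (δ κ θ : ℝ) (hδ : 0 < δ) (hκ : 0 < κ) (hθ : 0 < θ) :
    ∃ z0 : ℕ, ∀ z : ℕ, z0 ≤ z → ∀ A : Finset ℕ, PS z A → ∀ β β1 : ℕ, β1 ≤ β → β ≤ z →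
    ((2 : ℝ) ^ z) ^ θ ≤ 2 ^ β1 → En z A 1 β1 ≤ En z A 1 β + κ →
    ∀ v L : ℕ, (v : ℝ) * ((2 : ℝ) ^ z) ^ θ ≤ 2 ^ β → (L : ℝ) * ((2 : ℝ) ^ z) ^ θ ≤ 2 ^ β →
    2 ^ β1 * ((2 : ℝ) ^ z) ^ θ ≤ L →
    (((range (2 ^ z)).filter fun x => x.Coprime M ∧ δ / 4 ≤ cd (FA z A) 1 β x ∧
      AN L (FA z A) (x + v) < δ / 8).card : ℝ) ≤
      512 * κ / δ ^ 2 * ((M.totient : ℝ) / M) * 2 ^ z :=
  bad_real_of (fun θ κ hθ hκ => incr 1 1 le_rfl le_rfl (dvd_refl 1) θ κ hθ hκ) M hM δ κ θ hδ hκ hθ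

end

end Pool.Agent.Helper57.NX3
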