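import Pool.Agent.Helper23.NX3.Cells

/-!
# Project NX2, C7: bad sets at the real positions
-/

set_option autoImplicit false

open Finset
open scoped BigOperators

namespace Pool.Agent.Helper57.NX3

noncomputable section

theorem AN_nonneg {f : ℕ → ℝ} (hf : ∀ x, 0 ≤ f x) (L x : ℕ) : 0 ≤ AN L f x :=
  div_nonneg (sum_nonneg fun _ _ => hf _) (Nat.cast_nonneg _)

lemma sum_step52 {f : ℕ → ℝ} {B : ℝ} (hf : ∀ x, 0 ≤ f x) (hB : ∀ x, f x ≤ B) (L x t : ℕ) :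
    |∑ i ∈ range L, f (x + t + i) - ∑ i ∈ range L, f (x + i)| ≤ B * t := by
  induction t with
  | zero => simp
  | succ t ih =>
    have h1 : ∑ i ∈ range L, f (x + (t + 1) + i) - ∑ i ∈ range L, f (x + t + i) =
        f (x + t + L) - f (x + t) := by
      have h2 := sum_range_succ (fun i => f (x + t + i)) L
      have h3 := sum_range_succ' (fun i => f (x + t + i)) L
      have h4 : ∑ i ∈ range L, f (x + (t + 1) + i) = ∑ i ∈ range L, f (x + t + (i + 1)) :=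
        sum_congr rfl fun i _ => by congr 1; ring
      rw [h4]
      rw [h2, add_zero] at h3
      linarith
    have h5 : |f (x + t + L) - f (x + t)| ≤ B := by
      rw [abs_le]
      constructor
      · linarith [hf (x + t + L), hB (x + t)]
      · linarith [hB (x + t + L), hf (x + t)]
    rw [← h1] at h5
    have h6 := abs_add_le (∑ i ∈ range L, f (x + (t + 1) + i) - ∑ i ∈ range L, f (x + t + i))
      (∑ i ∈ range L, f (x + t + i) - ∑ i ∈ range L, f (x + i))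
    rw [sub_add_sub_cancel] at h6
    push_cast
    linarith

theorem AN_step {f : ℕ → ℝ} {B : ℝ} (hf : ∀ x, 0 ≤ f x) (hB : ∀ x, f x ≤ B) {L : ℕ} (hL : 1 ≤ L)
    (x t : ℕ) : |AN L f (x + t) - AN L f x| ≤ B * t / L := by
  have hL0 : (0 : ℝ) < L := by exact_mod_cast hL
  unfold AN
  rw [← sub_div, abs_div, abs_of_pos hL0]
  exact div_le_div_of_nonneg_right (sum_step52 hf hB L x t) hL0.le

/-- partial sums of `f - cd f 1 b` are small -/
lemma partial52 {f : ℕ → ℝ} {B : ℝ} (hf : ∀ x, 0 ≤ f x) (hB : ∀ x, f x ≤ B) (b n : ℕ) :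
    |∑ i ∈ range n, (f i - cd f 1 b i)| ≤ 2 * B * 2 ^ b := by
  have hB0 : 0 ≤ B := (hf 0).trans (hB 0)
  have hK : 0 < 2 ^ b := by positivity
  have h0 : ∀ q : ℕ, ∑ i ∈ range (2 ^ b * q), (f i - cd f 1 b i) = 0 := by
    intro q
    induction q with
    | zero => simp
    | succ q ih =>
      rw [Nat.mul_succ, sum_range_add, ih, zero_add, sum_sub_distrib, sub_eq_zero]
      have h1 : ∀ i ∈ range (2 ^ b), cd f 1 b (2 ^ b * q + i) =
          (∑ i ∈ range (2 ^ b), f (2 ^ b * q + i)) / 2 ^ b := by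
        intro i hi
        rw [cd_one]
        congr 1
        have h2 : (2 ^ b * q + i) / 2 ^ b = q := by
          rw [Nat.mul_add_div hK, Nat.div_eq_of_lt (mem_range.1 hi), add_zero]
        unfold blo
        rw [h2, sum_Ico_eq_sum_range]
        congr 2
        rw [Nat.mul_succ, Nat.add_sub_cancel_left]
      rw [sum_congr rfl h1, sum_const, card_range, nsmul_eq_mul]
      push_cast
      field_simp
  have h1 : n = 2 ^ b * (n / 2 ^ b) + n % 2 ^ b := (Nat.div_add_mod n (2 ^ b)).symm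
  rw [h1, sum_range_add, h0, zero_add]
  refine (abs_sum_le_sum_abs _ _).trans ?_
  have h2 : ∀ i ∈ range (n % 2 ^ b), |f (2 ^ b * (n / 2 ^ b) + i) -
      cd f 1 b (2 ^ b * (n / 2 ^ b) + i)| ≤ 2 * B := by
    intro i _
    have e1 := cd_nonneg hf 1 b (2 ^ b * (n / 2 ^ b) + i)
    have e2 := cd_le hf hB (le_refl 1) (Nat.one_le_two_pow (n := b)) (2 ^ b * (n / 2 ^ b) + i)
    have e3 := hf (2 ^ b * (n / 2 ^ b) + i)
    have e4 := hB (2 ^ b * (n / 2 ^ b) + i)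
    rw [abs_le]
    constructor <;> linarith
  refine (sum_le_card_nsmul _ _ _ h2).trans ?_
  rw [card_range, nsmul_eq_mul, mul_comm]
  refine mul_le_mul_of_nonneg_left ?_ (by positivity)
  exact_mod_cast (Nat.mod_lt n hK).le

/-- averages of `f` and of its block averages -/
lemma AN_block52 {f : ℕ → ℝ} {B : ℝ} (hf : ∀ x, 0 ≤ f x) (hB : ∀ x, f x ≤ B) (b L y : ℕ)
    (hL : 1 ≤ L) : |AN L f y - AN L (cd f 1 b) y| ≤ 4 * B * 2 ^ b / L := by
  have hL0 : (0 : ℝ) < L := by exact_mod_cast hL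
  unfold AN
  rw [← sub_div, abs_div, abs_of_pos hL0]
  refine div_le_div_of_nonneg_right ?_ hL0.le
  have h1 : ∑ t ∈ range L, f (y + t) - ∑ t ∈ range L, cd f 1 b (y + t) =
      ∑ i ∈ range (y + L), (f i - cd f 1 b i) - ∑ i ∈ range y, (f i - cd f 1 b i) := by
    rw [sum_range_add, add_sub_cancel_left, sum_sub_distrib]
  rw [h1]
  refine (abs_sub _ _).trans ?_
  have h2 := partial52 hf hB b (y + L)
  have h3 := partial52 hf hB b y
  linarith

/-- points whose block contains the interval used by the average -/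
def NG52 (z b v L : ℕ) : Finset ℕ := (range (2 ^ z)).filter fun x => x % 2 ^ b + v + L ≤ 2 ^ b

lemma same_block52 {b z x y : ℕ} (hb : b ≤ z) (hx : x < 2 ^ z) (hxy : y / 2 ^ b = x / 2 ^ b) :
    y < 2 ^ z := by
  have hK : 0 < 2 ^ b := by positivity
  have h1 : (2 : ℕ) ^ z = 2 ^ b * 2 ^ (z - b) := by rw [← pow_add]; congr 1; omega
  have h2 : x / 2 ^ b < 2 ^ (z - b) := by
    rw [Nat.div_lt_iff_lt_mul hK, mul_comm, ← h1]
    exact hx
  rw [← hxy, Nat.div_lt_iff_lt_mul hK, mul_comm, ← h1] at h2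
  exact h2

lemma div_add52 {b x s : ℕ} (h : x % 2 ^ b + s < 2 ^ b) : (x + s) / 2 ^ b = x / 2 ^ b := by
  have hK : 0 < 2 ^ b := by positivity
  have h1 := Nat.div_add_mod x (2 ^ b)
  have h2 : x + s = 2 ^ b * (x / 2 ^ b) + (x % 2 ^ b + s) := by omega
  rw [h2, Nat.mul_add_div hK, Nat.div_eq_of_lt h, add_zero]

/-- the square sum of the averages -/
lemma sumsq52 (w : ℕ → ℝ) (z b v L : ℕ) (hb : b ≤ z) (hL : 1 ≤ L) :
    ∑ x ∈ NG52 z b v L, (AN L w (x + v)) ^ 2 ≤ ∑ x ∈ range (2 ^ z), w x ^ 2 := by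
  have hL0 : (0 : ℝ) < L := by exact_mod_cast hL
  have h1 : ∀ x, (AN L w (x + v)) ^ 2 ≤ (∑ t ∈ range L, w (x + v + t) ^ 2) / L := by
    intro x
    have h2 := sq_sum_le_card_mul_sum_sq (s := range L) (f := fun t => w (x + v + t))
    rw [card_range] at h2
    unfold AN
    rw [div_pow, div_le_div_iff₀ (by positivity) hL0]
    calc (∑ t ∈ range L, w (x + v + t)) ^ 2 * L ≤ (L * ∑ t ∈ range L, w (x + v + t) ^ 2) * L :=
          mul_le_mul_of_nonneg_right h2 hL0.le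
      _ = (∑ t ∈ range L, w (x + v + t) ^ 2) * (L : ℝ) ^ 2 := by ring
  refine (sum_le_sum fun x _ => h1 x).trans ?_
  rw [← sum_div, div_le_iff₀ hL0, sum_comm]
  have h2 : ∀ t ∈ range L, ∑ x ∈ NG52 z b v L, w (x + v + t) ^ 2 ≤
      ∑ x ∈ range (2 ^ z), w x ^ 2 := by
    intro t ht
    have ht' := mem_range.1 ht
    have h3 : ∑ x ∈ NG52 z b v L, w (x + v + t) ^ 2 =
        ∑ y ∈ (NG52 z b v L).image (fun x => x + v + t), w y ^ 2 := by
      rw [sum_image]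
      intro x _ y _ hxy
      simp only at hxy
      omega
    rw [h3]
    refine sum_le_sum_of_subset_of_nonneg ?_ fun _ _ _ => sq_nonneg _
    intro y hy
    rw [mem_image] at hy
    obtain ⟨x, hx, rfl⟩ := hy
    unfold NG52 at hx
    rw [mem_filter, mem_range] at hx
    rw [mem_range]
    refine same_block52 hb hx.1 ?_
    rw [add_assoc]
    exact div_add52 (by omega)
  refine (sum_le_card_nsmul _ _ _ h2).trans (le_of_eq ?_)
  rw [card_range, nsmul_eq_mul, mul_comm]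

lemma core52 {f : ℕ → ℝ} {B : ℝ} (hf : ∀ x, 0 ≤ f x) (hB : ∀ x, f x ≤ B) (M v L b b1 z : ℕ)
    (hM : 1 ≤ M) (hL : 1 ≤ L) (hb : b ≤ z) (δ η : ℝ) (hδ : 0 < δ)
    (h1 : B * M / L ≤ δ / 80) (h2 : 4 * B * 2 ^ b1 / L ≤ η) :
    (((range (2 ^ z)).filter fun x => (x.Coprime M ∧ δ / 4 ≤ cd f 1 b x ∧
      AN L f (x + v) < δ / 8) ∧ M ≤ x % 2 ^ b ∧ x % 2 ^ b + v + L + M ≤ 2 ^ b).card : ℝ) ≤
    (M.totient : ℝ) / M * ((80 / (9 * δ)) ^ 2 *
      (2 * ∑ x ∈ range (2 ^ z), (cd f 1 b1 x - cd f 1 b x) ^ 2 + 2 * η ^ 2 * 2 ^ z)) := by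
  classical
  have hB0 : 0 ≤ B := (hf 0).trans (hB 0)
  have hL0 : (0 : ℝ) < L := by exact_mod_cast hL
  have hM0 : (0 : ℝ) < M := by exact_mod_cast hM
  have hη : 0 ≤ η := le_trans (by positivity) h2
  obtain ⟨w, hw⟩ : ∃ w : ℕ → ℝ, w = fun x => cd f 1 b1 x - cd f 1 b x := ⟨_, rfl⟩
  obtain ⟨u, hu⟩ : ∃ u : ℕ → ℝ, u = fun x => cd f 1 b x - AN L f (x + v) := ⟨_, rfl⟩
  obtain ⟨T, hT⟩ : ∃ T : Finset ℕ, T = (range (2 ^ z)).filter fun x => (x.Coprime M ∧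
    δ / 4 ≤ cd f 1 b x ∧ AN L f (x + v) < δ / 8) ∧ M ≤ x % 2 ^ b ∧
    x % 2 ^ b + v + L + M ≤ 2 ^ b := ⟨_, rfl⟩
  rw [← hT]
  -- step A
  have hA : ∀ x ∈ NG52 z b v L, u x ^ 2 ≤ 2 * (AN L w (x + v)) ^ 2 + 2 * η ^ 2 := by
    intro x hx
    unfold NG52 at hx
    rw [mem_filter, mem_range] at hx
    have e1 : AN L (cd f 1 b) (x + v) = cd f 1 b x := by
      unfold AN
      have e2 : ∀ t ∈ range L, cd f 1 b (x + v + t) = cd f 1 b x := by
        intro t ht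
        have ht' := mem_range.1 ht
        refine cd_congr f ?_ (Nat.modEq_one)
        rw [add_assoc]
        exact div_add52 (by omega)
      rw [sum_congr rfl e2, sum_const, card_range, nsmul_eq_mul]
      field_simp
    have e3 : AN L w (x + v) = AN L (cd f 1 b1) (x + v) - AN L (cd f 1 b) (x + v) := by
      unfold AN
      rw [hw, ← sub_div, ← sum_sub_distrib]
    have e4 := AN_block52 hf hB b1 L (x + v) hL
    have e5 : u x = -(AN L w (x + v)) - (AN L f (x + v) - AN L (cd f 1 b1) (x + v)) := by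
      rw [hu, e3, e1]
      ring
    have e6 := e4.trans h2
    obtain ⟨a, ha⟩ : ∃ a, a = AN L w (x + v) := ⟨_, rfl⟩
    obtain ⟨c, hc⟩ : ∃ c, c = AN L f (x + v) - AN L (cd f 1 b1) (x + v) := ⟨_, rfl⟩
    rw [e5, ← ha, ← hc]
    rw [← hc] at e6
    have e7 : c ^ 2 ≤ η ^ 2 := sq_le_sq' (abs_le.1 e6).1 (abs_le.1 e6).2
    nlinarith [sq_nonneg (a - c)]
  have hAB : ∑ x ∈ NG52 z b v L, u x ^ 2 ≤
      2 * ∑ x ∈ range (2 ^ z), w x ^ 2 + 2 * η ^ 2 * 2 ^ z := by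
    refine (sum_le_sum hA).trans ?_
    rw [sum_add_distrib, ← mul_sum, sum_const, nsmul_eq_mul]
    have e1 := sumsq52 w z b v L hb hL
    have e2 : ((NG52 z b v L).card : ℝ) ≤ 2 ^ z := by
      have := card_filter_le (range (2 ^ z)) (fun x => x % 2 ^ b + v + L ≤ 2 ^ b)
      rw [card_range] at this
      exact_mod_cast this
    have e3 : ((NG52 z b v L).card : ℝ) * (2 * η ^ 2) ≤ 2 ^ z * (2 * η ^ 2) :=
      mul_le_mul_of_nonneg_right e2 (by positivity)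
    linarith
  -- step C
  obtain ⟨J, hJ⟩ : ∃ J : Finset ℕ, J = T.image (fun x => x / M) := ⟨_, rfl⟩
  have hC : T.card ≤ M.totient * J.card := by
    rw [hJ]
    refine card_le_mul_card_image T _ fun j _ => ?_
    have e1 := Nat.filter_coprime_Ico_eq_totient M (M * j)
    rw [← e1]
    refine card_le_card fun x hx => ?_
    rw [mem_filter, hT, mem_filter] at hx
    rw [mem_filter, mem_Ico]
    have e2 := Nat.div_add_mod x M
    have e3 := Nat.mod_lt x hM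
    rw [hx.2] at e2
    refine ⟨by omega, ?_⟩
    exact (hx.1.2.1.1).symm
  -- step D
  have hD : ∀ j ∈ J, ∀ x' ∈ Ico (M * j) (M * j + M), x' ∈ NG52 z b v L ∧ 9 * δ / 80 ≤ u x' := by
    intro j hj x' hx'
    rw [hJ, mem_image] at hj
    obtain ⟨x, hx, hxj⟩ := hj
    rw [hT, mem_filter, mem_range] at hx
    obtain ⟨hxz, ⟨_, hx1, hx2⟩, hx3, hx4⟩ := hx
    rw [mem_Ico] at hx'
    have e2 := Nat.div_add_mod x M
    have e3 := Nat.mod_lt x hM
    rw [hxj] at e2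
    have hK : 0 < 2 ^ b := by positivity
    have e4 := Nat.div_add_mod x (2 ^ b)
    -- same block
    have e5 : x' / 2 ^ b = x / 2 ^ b ∧ x' % 2 ^ b + v + L ≤ 2 ^ b := by
      have f1 : x' = 2 ^ b * (x / 2 ^ b) + (x % 2 ^ b + x' - x) := by omega
      have f2 : x % 2 ^ b + x' - x < 2 ^ b := by omega
      have f3 : x' / 2 ^ b = x / 2 ^ b := by
        conv_lhs => rw [f1]
        rw [Nat.mul_add_div hK, Nat.div_eq_of_lt f2, add_zero]
      have f4 : x' % 2 ^ b = x % 2 ^ b + x' - x := by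
        conv_lhs => rw [f1]
        rw [Nat.mul_add_mod, Nat.mod_eq_of_lt f2]
      refine ⟨f3, ?_⟩
      rw [f4]
      omega
    have e6 : |AN L f (x' + v) - AN L f (x + v)| ≤ δ / 80 := by
      refine le_trans ?_ h1
      rcases le_total x x' with hle | hle
      · obtain ⟨t, rfl⟩ := Nat.exists_eq_add_of_le hle
        have g1 := AN_step hf hB hL (x + v) t
        rw [show x + v + t = x + t + v by ring] at g1
        refine g1.trans (div_le_div_of_nonneg_right (mul_le_mul_of_nonneg_left ?_ hB0) hL0.le)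
        have : t ≤ M := by omega
        exact_mod_cast this
      · obtain ⟨t, rfl⟩ := Nat.exists_eq_add_of_le hle
        have g1 := AN_step hf hB hL (x' + v) t
        rw [show x' + v + t = x' + t + v by ring, abs_sub_comm] at g1
        refine g1.trans (div_le_div_of_nonneg_right (mul_le_mul_of_nonneg_left ?_ hB0) hL0.le)
        have : t ≤ M := by omega
        exact_mod_cast this
    refine ⟨?_, ?_⟩
    · unfold NG52
      rw [mem_filter, mem_range]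
      exact ⟨same_block52 hb hxz e5.1, e5.2⟩
    · rw [hu]
      have e7 : cd f 1 b x' = cd f 1 b x := cd_congr f e5.1 Nat.modEq_one
      have e8 := (abs_le.1 e6).2
      simp only [e7]
      linarith
  have hE : (J.card : ℝ) * (M * (9 * δ / 80) ^ 2) ≤ ∑ x ∈ NG52 z b v L, u x ^ 2 := by
    have e1 : ∑ x ∈ (NG52 z b v L).filter (fun x => x / M ∈ J), u x ^ 2 =
        ∑ j ∈ J, ∑ x ∈ ((NG52 z b v L).filter (fun x => x / M ∈ J)).filter (fun x => x / M = j),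
          u x ^ 2 := by
      rw [sum_fiberwise_of_maps_to]
      intro x hx
      exact (mem_filter.1 hx).2
    have e2 : ∀ j ∈ J, M * (9 * δ / 80) ^ 2 ≤
        ∑ x ∈ ((NG52 z b v L).filter (fun x => x / M ∈ J)).filter (fun x => x / M = j), u x ^ 2 := by
      intro j hj
      have e3 : Ico (M * j) (M * j + M) ⊆
          ((NG52 z b v L).filter (fun x => x / M ∈ J)).filter (fun x => x / M = j) := by
        intro x hx
        have e4 := (hD j hj x hx).1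
        have e5 : x / M = j := by
          rw [mem_Ico] at hx
          obtain ⟨t, rfl⟩ := Nat.exists_eq_add_of_le hx.1
          rw [Nat.mul_add_div hM, Nat.div_eq_of_lt (by omega), add_zero]
        rw [mem_filter, mem_filter]
        exact ⟨⟨e4, by rw [e5]; exact hj⟩, e5⟩
      refine le_trans ?_ (sum_le_sum_of_subset_of_nonneg e3 fun _ _ _ => sq_nonneg _)
      have e6 : ∀ x ∈ Ico (M * j) (M * j + M), (9 * δ / 80) ^ 2 ≤ u x ^ 2 := fun x hx =>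
        pow_le_pow_left₀ (by positivity) (hD j hj x hx).2 2
      refine le_trans (le_of_eq ?_) (card_nsmul_le_sum _ _ _ e6)
      rw [Nat.card_Ico, Nat.add_sub_cancel_left, nsmul_eq_mul]
    calc (J.card : ℝ) * (M * (9 * δ / 80) ^ 2) = J.card • (M * (9 * δ / 80) ^ 2) := by
          rw [nsmul_eq_mul]
      _ ≤ _ := card_nsmul_le_sum _ _ _ e2
      _ = ∑ x ∈ (NG52 z b v L).filter (fun x => x / M ∈ J), u x ^ 2 := e1.symm
      _ ≤ _ := sum_le_sum_of_subset_of_nonneg (filter_subset _ _) fun _ _ _ => sq_nonneg _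
  have hF := hE.trans hAB
  rw [hw] at hF
  have hC' : (T.card : ℝ) ≤ M.totient * J.card := by exact_mod_cast hC
  obtain ⟨R, hR⟩ : ∃ R : ℝ, R = 2 * ∑ x ∈ range (2 ^ z), (cd f 1 b1 x - cd f 1 b x) ^ 2 +
    2 * η ^ 2 * 2 ^ z := ⟨_, rfl⟩
  rw [← hR]
  have hF' : (J.card : ℝ) * (M * (9 * δ / 80) ^ 2) ≤ R := by rw [hR]; exact hF
  have hG : (J.card : ℝ) ≤ (80 / (9 * δ)) ^ 2 * R / M := by
    rw [le_div_iff₀ hM0]
    have e1 : (80 / (9 * δ)) ^ 2 * (9 * δ / 80) ^ 2 = 1 := by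
      rw [← mul_pow]
      have : 80 / (9 * δ) * (9 * δ / 80) = 1 := by field_simp
      rw [this, one_pow]
    calc (J.card : ℝ) * M = ((80 / (9 * δ)) ^ 2 * (9 * δ / 80) ^ 2) * (J.card * M) := by
          rw [e1, one_mul]
      _ = (80 / (9 * δ)) ^ 2 * (J.card * (M * (9 * δ / 80) ^ 2)) := by ring
      _ ≤ (80 / (9 * δ)) ^ 2 * R := mul_le_mul_of_nonneg_left hF' (by positivity)
  calc (T.card : ℝ) ≤ M.totient * J.card := hC'
    _ ≤ M.totient * ((80 / (9 * δ)) ^ 2 * R / M) := mul_le_mul_of_nonneg_left hG (Nat.cast_nonneg _)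
    _ = (M.totient : ℝ) / M * ((80 / (9 * δ)) ^ 2 * R) := by ring

/-- number of points near the ends of the blocks -/
lemma ends52 (z b s M : ℕ) (hb : b ≤ z) :
    (((range (2 ^ z)).filter fun x => ¬ (M ≤ x % 2 ^ b ∧ x % 2 ^ b + s + M ≤ 2 ^ b)).card : ℝ) ≤
      (s + 2 * M) * (2 ^ z / 2 ^ b) := by
  have hK : 0 < 2 ^ b := by positivity
  have hz : (2 : ℕ) ^ z = 2 ^ b * 2 ^ (z - b) := by rw [← pow_add]; congr 1; omega
  obtain ⟨R, hR⟩ : ∃ R : Finset ℕ, R = range M ∪ Ico (2 ^ b - (s + M)) (2 ^ b) := ⟨_, rfl⟩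
  have hRc : R.card ≤ s + 2 * M := by
    rw [hR]
    refine (card_union_le _ _).trans ?_
    rw [card_range, Nat.card_Ico]
    omega
  have hsub : ((range (2 ^ z)).filter fun x => ¬ (M ≤ x % 2 ^ b ∧ x % 2 ^ b + s + M ≤ 2 ^ b)) ⊆
      (range (2 ^ (z - b)) ×ˢ R).image (fun a => 2 ^ b * a.1 + a.2) := by
    intro x hx
    rw [mem_filter, mem_range] at hx
    rw [mem_image]
    have h1 := Nat.div_add_mod x (2 ^ b)
    have h2 := Nat.mod_lt x hK
    refine ⟨(x / 2 ^ b, x % 2 ^ b), ?_, h1⟩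
    rw [mem_product, mem_range, hR, mem_union, mem_range, mem_Ico]
    refine ⟨?_, ?_⟩
    · rw [Nat.div_lt_iff_lt_mul hK, mul_comm, ← hz]
      exact hx.1
    · have h3 := hx.2
      by_cases h4 : x % 2 ^ b < M
      · exact Or.inl h4
      · refine Or.inr ⟨?_, h2⟩
        by_contra h5
        exact h3 ⟨by omega, by omega⟩
  have h1 := (card_le_card hsub).trans card_image_le
  rw [card_product, card_range] at h1
  have h2 : 2 ^ (z - b) * R.card ≤ 2 ^ (z - b) * (s + 2 * M) := Nat.mul_le_mul_left _ hRc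
  have h3 : (2 : ℝ) ^ z / 2 ^ b = 2 ^ (z - b) := by
    rw [div_eq_iff (by positivity), mul_comm]
    exact_mod_cast hz
  rw [h3, mul_comm]
  exact_mod_cast h1.trans h2

/-- C7 from the energy increment (C4) -/
theorem bad_real_of (hincr : ∀ θ κ : ℝ, 0 < θ → 0 < κ → ∃ z0 : ℕ, ∀ z : ℕ, z0 ≤ z →
      ∀ A : Finset ℕ, PS z A → ∀ b b' : ℕ, b' ≤ b → b ≤ z → ((2 : ℝ) ^ z) ^ θ ≤ 2 ^ b' →
      (∑ x ∈ range (2 ^ z), (cd (FA z A) 1 b' x - cd (FA z A) 1 b x) ^ 2) / 2 ^ z ≤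
        (∑ x ∈ range (2 ^ z), cd (FA z A) 1 b' x ^ 2) / 2 ^ z -
          (∑ x ∈ range (2 ^ z), cd (FA z A) 1 b x ^ 2) / 2 ^ z + κ)
    (M : ℕ) (hM : 1 ≤ M) (δ κ θ : ℝ) (hδ : 0 < δ) (hκ : 0 < κ) (hθ : 0 < θ) :
    ∃ z0 : ℕ, ∀ z : ℕ, z0 ≤ z → ∀ A : Finset ℕ, PS z A → ∀ β β1 : ℕ, β1 ≤ β → β ≤ z →
    ((2 : ℝ) ^ z) ^ θ ≤ 2 ^ β1 → En z A 1 β1 ≤ En z A 1 β + κ →
    ∀ v L : ℕ, (v : ℝ) * ((2 : ℝ) ^ z) ^ θ ≤ 2 ^ β → (L : ℝ) * ((2 : ℝ) ^ z) ^ θ ≤ 2 ^ β →
    2 ^ β1 * ((2 : ℝ) ^ z) ^ θ ≤ L →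
    (((range (2 ^ z)).filter fun x => x.Coprime M ∧ δ / 4 ≤ cd (FA z A) 1 β x ∧
      AN L (FA z A) (x + v) < δ / 8).card : ℝ) ≤
      512 * κ / δ ^ 2 * ((M.totient : ℝ) / M) * 2 ^ z := by
  obtain ⟨z1, hz1⟩ := hincr θ (κ / 4) hθ (by positivity)
  have hM0 : (0 : ℝ) < M := by exact_mod_cast hM
  have hφ0 : 0 < (M.totient : ℝ) / M := by
    have : 0 < M.totient := Nat.totient_pos.2 hM
    positivity
  obtain ⟨φ, hφ⟩ : ∃ φ : ℝ, φ = (M.totient : ℝ) / M := ⟨_, rfl⟩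
  rw [← hφ] at hφ0 ⊢
  -- `log Z * Z ^ (-θ) → 0`
  have hlim : Filter.Tendsto (fun z : ℕ => Real.log ((2 : ℝ) ^ z) * ((2 : ℝ) ^ z) ^ (-θ))
      Filter.atTop (nhds 0) := by
    have h1 : Filter.Tendsto (fun x : ℝ => Real.log x * x ^ (-θ)) Filter.atTop (nhds 0) := by
      have h2 := (isLittleO_log_rpow_atTop hθ).tendsto_div_nhds_zero
      refine h2.congr' ?_
      filter_upwards [Filter.eventually_gt_atTop 0] with x hx
      rw [Real.rpow_neg hx.le]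
      rfl
    exact h1.comp (tendsto_pow_atTop_atTop_of_one_lt (by norm_num : (1 : ℝ) < 2))
  have hlim2 : Filter.Tendsto (fun z : ℕ => ((2 : ℝ) ^ z) ^ (-θ)) Filter.atTop (nhds 0) :=
    (tendsto_rpow_neg_atTop hθ).comp (tendsto_pow_atTop_atTop_of_one_lt (by norm_num : (1 : ℝ) < 2))
  obtain ⟨e1, he1⟩ : ∃ e1 : ℝ, e1 = min (δ / (80 * M)) (Real.sqrt κ / 8) := ⟨_, rfl⟩
  have he10 : 0 < e1 := by rw [he1]; positivity
  obtain ⟨e2, he2⟩ : ∃ e2 : ℝ, e2 = κ / δ ^ 2 * φ / (2 + 2 * M) := ⟨_, rfl⟩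
  have he20 : 0 < e2 := by rw [he2]; positivity
  have hev := (hlim.eventually (ge_mem_nhds he10)).and (hlim2.eventually (ge_mem_nhds he20))
  obtain ⟨z2, hz2⟩ := Filter.eventually_atTop.1 hev
  refine ⟨max z1 z2, ?_⟩
  intro z hz A hA β β1 hβ1 hβz hθβ hEn v L hv hL1 hL2
  obtain ⟨h3, h4⟩ := hz2 z ((le_max_right _ _).trans hz)
  have hinc := hz1 z ((le_max_left _ _).trans hz) A hA β β1 hβ1 hβz hθβ
  obtain ⟨lz, hlz⟩ : ∃ lz : ℝ, lz = Real.log ((2 : ℝ) ^ z) := ⟨_, rfl⟩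
  obtain ⟨Zt, hZt⟩ : ∃ Zt : ℝ, Zt = ((2 : ℝ) ^ z) ^ θ := ⟨_, rfl⟩
  have hZt0 : 0 < Zt := by rw [hZt]; positivity
  have hneg : ((2 : ℝ) ^ z) ^ (-θ) = Zt⁻¹ := by rw [hZt, Real.rpow_neg (by positivity)]
  rw [hneg, ← hlz] at h3
  rw [hneg] at h4
  rw [← hZt] at hθβ hv hL1 hL2
  have hlz0 : 0 ≤ lz := by
    rw [hlz]
    exact Real.log_nonneg (one_le_pow₀ (by norm_num))
  have h1β1 : (1 : ℝ) ≤ 2 ^ β1 := one_le_pow₀ (by norm_num)
  have hLpos : (0 : ℝ) < L := lt_of_lt_of_le (by positivity) hL2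
  have hL : 1 ≤ L := by
    have : 0 < L := by exact_mod_cast hLpos
    omega
  have hLZ : Zt ≤ L := le_trans (le_mul_of_one_le_left hZt0.le h1β1) hL2
  have hf := FA_nonneg z A
  have hB : ∀ x, FA z A x ≤ lz := by rw [hlz]; exact FA_le z A
  -- the two smallness conditions
  have hlM : lz * M / L ≤ δ / 80 := by
    have g1 : lz * Zt⁻¹ ≤ δ / (80 * M) := h3.trans (by rw [he1]; exact min_le_left _ _)
    have g2 : lz * M / L ≤ lz * M / Zt := div_le_div_of_nonneg_left (by positivity) hZt0 hLZ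
    refine g2.trans ?_
    have g3 : lz * M / Zt = (lz * Zt⁻¹) * M := by ring
    rw [g3]
    calc (lz * Zt⁻¹) * M ≤ δ / (80 * M) * M := mul_le_mul_of_nonneg_right g1 hM0.le
      _ = δ / 80 := by field_simp
  have hη : 4 * lz * 2 ^ β1 / L ≤ Real.sqrt κ / 2 := by
    have g1 : lz * Zt⁻¹ ≤ Real.sqrt κ / 8 := h3.trans (by rw [he1]; exact min_le_right _ _)
    have g2 : 2 ^ β1 / (L : ℝ) ≤ Zt⁻¹ := by
      rw [div_le_iff₀ hLpos, inv_mul_eq_div, le_div_iff₀ hZt0]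
      exact hL2
    calc 4 * lz * 2 ^ β1 / L = 4 * (lz * (2 ^ β1 / L)) := by ring
      _ ≤ 4 * (lz * Zt⁻¹) := by gcongr
      _ ≤ 4 * (Real.sqrt κ / 8) := by gcongr
      _ = Real.sqrt κ / 2 := by ring
  have hcore := core52 hf hB M v L β β1 z hM hL hβz δ (Real.sqrt κ / 2) hδ hlM hη
  rw [← hφ] at hcore
  -- the energy increment
  have hsum : ∑ x ∈ range (2 ^ z), (cd (FA z A) 1 β1 x - cd (FA z A) 1 β x) ^ 2 ≤
      5 / 4 * κ * 2 ^ z := by
    unfold En at hEn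
    simp only [Nat.totient_one, Nat.cast_one, div_one, one_mul] at hEn
    have g1 := hinc.trans (show _ ≤ 5 / 4 * κ by linarith)
    rwa [div_le_iff₀ (by positivity)] at g1
  have hsq : (Real.sqrt κ / 2) ^ 2 = κ / 4 := by
    rw [div_pow, Real.sq_sqrt hκ.le]
    norm_num
  rw [hsq] at hcore
  have hends := ends52 z β (v + L) M hβz
  -- the exceptional points
  have hexc : ((v + L : ℕ) + 2 * (M : ℝ)) * (2 ^ z / 2 ^ β) ≤ κ / δ ^ 2 * φ * 2 ^ z := by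
    have hββ : (2 : ℝ) ^ β1 ≤ 2 ^ β := pow_le_pow_right₀ (by norm_num) hβ1
    have g1 : (v : ℝ) / 2 ^ β ≤ Zt⁻¹ := by
      rw [div_le_iff₀ (by positivity), inv_mul_eq_div, le_div_iff₀ hZt0]
      exact hv
    have g2 : (L : ℝ) / 2 ^ β ≤ Zt⁻¹ := by
      rw [div_le_iff₀ (by positivity), inv_mul_eq_div, le_div_iff₀ hZt0]
      exact hL1
    have g3 : 1 / (2 : ℝ) ^ β ≤ Zt⁻¹ := by
      rw [one_div]
      exact inv_anti₀ hZt0 (hθβ.trans hββ)
    calc ((v + L : ℕ) + 2 * (M : ℝ)) * (2 ^ z / 2 ^ β) =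
          ((v : ℝ) / 2 ^ β + (L : ℝ) / 2 ^ β + 2 * M * (1 / 2 ^ β)) * 2 ^ z := by
          push_cast; ring
      _ ≤ (Zt⁻¹ + Zt⁻¹ + 2 * M * Zt⁻¹) * 2 ^ z := by gcongr
      _ = (2 + 2 * M) * Zt⁻¹ * 2 ^ z := by ring
      _ ≤ (2 + 2 * M) * e2 * 2 ^ z := by gcongr
      _ = κ / δ ^ 2 * φ * 2 ^ z := by rw [he2]; field_simp
  -- final count
  have hsplit : (range (2 ^ z)).filter (fun x => x.Coprime M ∧ δ / 4 ≤ cd (FA z A) 1 β x ∧
      AN L (FA z A) (x + v) < δ / 8) ⊆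
      ((range (2 ^ z)).filter fun x => (x.Coprime M ∧ δ / 4 ≤ cd (FA z A) 1 β x ∧
        AN L (FA z A) (x + v) < δ / 8) ∧ M ≤ x % 2 ^ β ∧ x % 2 ^ β + v + L + M ≤ 2 ^ β) ∪
      ((range (2 ^ z)).filter fun x => ¬ (M ≤ x % 2 ^ β ∧ x % 2 ^ β + (v + L) + M ≤ 2 ^ β)) := by
    intro x hx
    rw [mem_filter] at hx
    rw [mem_union, mem_filter, mem_filter]
    by_cases hc : M ≤ x % 2 ^ β ∧ x % 2 ^ β + (v + L) + M ≤ 2 ^ β
    · exact Or.inl ⟨hx.1, hx.2, hc.1, by have := hc.2; omega⟩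
    · exact Or.inr ⟨hx.1, hc⟩
  have hcard := (card_le_card hsplit).trans (card_union_le _ _)
  have hcard' : (((range (2 ^ z)).filter (fun x => x.Coprime M ∧ δ / 4 ≤ cd (FA z A) 1 β x ∧
      AN L (FA z A) (x + v) < δ / 8)).card : ℝ) ≤
      (((range (2 ^ z)).filter fun x => (x.Coprime M ∧ δ / 4 ≤ cd (FA z A) 1 β x ∧
        AN L (FA z A) (x + v) < δ / 8) ∧ M ≤ x % 2 ^ β ∧ x % 2 ^ β + v + L + M ≤ 2 ^ β).card : ℝ) +
      (((range (2 ^ z)).filter fun x =>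
        ¬ (M ≤ x % 2 ^ β ∧ x % 2 ^ β + (v + L) + M ≤ 2 ^ β)).card : ℝ) := by
    exact_mod_cast hcard
  refine hcard'.trans ((add_le_add hcore (hends.trans hexc)).trans ?_)
  have hfin : (80 / (9 * δ)) ^ 2 * (2 * ∑ x ∈ range (2 ^ z),
      (cd (FA z A) 1 β1 x - cd (FA z A) 1 β x) ^ 2 + 2 * (κ / 4) * 2 ^ z) ≤
      (80 / (9 * δ)) ^ 2 * (3 * κ * 2 ^ z) := by
    refine mul_le_mul_of_nonneg_left ?_ (by positivity)
    linarith
  have hfin2 : (80 / (9 * δ)) ^ 2 * (3 * κ * 2 ^ z) ≤ 511 * (κ / δ ^ 2) * 2 ^ z := by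
    have g1 : (80 / (9 * δ)) ^ 2 * (3 * κ * 2 ^ z) = 6400 * 3 / 81 * (κ / δ ^ 2) * 2 ^ z := by
      field_simp
      norm_num
    rw [g1]
    have : 0 ≤ κ / δ ^ 2 * 2 ^ z := by positivity
    nlinarith
  have hfin3 := mul_le_mul_of_nonneg_left (hfin.trans hfin2) hφ0.le
  have hfin4 : φ * (511 * (κ / δ ^ 2) * 2 ^ z) + κ / δ ^ 2 * φ * 2 ^ z =
      512 * κ / δ ^ 2 * φ * 2 ^ z := by ring
  linarith

end

end Pool.Agent.Helper57.NX3
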